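import Pool.Agent.U899.QA.Uk

/-!
# K3 surfaces: rational points with the same class are dense, uniformly in all extensions of bounded
degree, and over quadratic extensions near all local points

`K` is a number field and `F` is a form over `K` of bidegree `(4, 4)` such that the curve `F = 0` in
`ℙ¹ × ℙ¹` is smooth. For a number field `L` over `K` and `e ∈ Lˣ` the double cover `X_e : w² = e F(x)` of
`ℙ¹ × ℙ¹` is a K3 surface over `L`; let `ι` be its involution `w ↦ -w`. The class `θ` of the fibres
`[Q] + [ι Q]` of `X_e → ℙ¹ × ℙ¹` does not depend on `Q`. By the Bloch–Beilinson conjecture the Chow group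
of zero-cycles of `X_e`, tensored with `ℚ`, is generated by `θ`, for all these fields `L`. For a point `P`
of `X_e` over `L` we consider the `L`-points `Q` such that `[Q] - [ι Q]` is an odd multiple of
`[P] - [ι P]` in the Chow group over `L`: their classes lie in a subgroup of rank at most two, generated
by `θ` and `[P]` up to torsion. If the class of `P` is the one predicted by the conjecture (a multiple of
`θ`, up to torsion), then this is true for all these `Q`.

**Theorem.**
1. There are finite sets `E 0`, `E 1` of algebraic numbers, and for each `D` a finite set `T` of points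
   over the algebraic closure, such that for ALL extensions `L` of `K` of degree at most `D`, ALL
   `e ∈ Lˣ` and ALL `L`-points `P` of `X_e`, `w ≠ 0`, which do not lie over `T` and over the lines
   `x_j = c`, `c ∈ E j`: these `Q` are dense near `P`, in the product of the sets of the local points,
   for all finite nonempty sets of `p`-adic places of degree one of `L` over different primes `p`, with or
   without a real place.
2. Let finitely many places of `K` be given (of any kind), points of `X = X_1` over the completions, not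
   on the branch curve, a neighbourhood of them and a finite extension `N` of `K`. The surface `X` need
   not have any `K`-points. Then there are a quadratic extension `L` of `K`, not contained in `N`, in
   which these places split, and an `L`-point `P` of `X` in the neighbourhood, such that the `L`-points
   `Q` with `[Q] - [ι Q]` an odd multiple of `[P] - [ι P]` are dense near `P` as in (1). For all these `Q`
   the closed point `{Q, s Q}` of degree two of `X` over `K` (`s` is the conjugation of `L` over `K`) has
   the class predicted by the conjecture: twice `[Q] + [s Q] - θ` is rationally equivalent to zero.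

In the starting result `EquivalentPointsDense` a statement like (1) is proved for one field, with a
finite set and lines which depend on the field.

Zero-cycles are formal sums of points of the affine part `w² = f(x)`. The cycles in `Rat` are rationally
equivalent to zero on `X_e`; they are generated by the divisors of the functions `(u + v w) / (u - v w)` on
the curves in the directions of the coordinates, the differences of two points on the image of a line
`t ↦ (c(t), b(t))`, and the differences of two fibres of the projection `(x, w) ↦ x`.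
-/

set_option autoImplicit false

namespace Pool.Agent.Results.MP_9207e0_ag.BoundedDegreeClasses

open MvPolynomial

section surfaces

/-- `F` is a form of bidegree `(4, 4)`: of degree `4` in each pair of variables `(j, 0)`, `(j, 1)`, the
coordinates of the `j`-th factor of `ℙ¹ × ℙ¹`. -/
def IsForm {K : Type} [Field K] (F : MvPolynomial (Fin 2 × Fin 2) K) : Prop :=
  ∀ m ∈ F.support, ∀ j, m (j, 0) + m (j, 1) = 4

/-- The curve `F = 0` in `ℙ¹ × ℙ¹` is smooth. -/
def Smooth {K : Type} [Field K] (F : MvPolynomial (Fin 2 × Fin 2) K) : Prop :=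
  ∀ x : Fin 2 × Fin 2 → AlgebraicClosure K, (∀ j, ∃ b, x (j, b) ≠ 0) → ∃ p, aeval x (pderiv p F) ≠ 0

/-- The polynomial of `F` in the chart of `ℙ¹ × ℙ¹` where the coordinates `(0, ε 0)`, `(1, ε 1)` are `1`. -/
noncomputable def chart {K : Type} [Field K] (F : MvPolynomial (Fin 2 × Fin 2) K)
    (ε : Fin 2 → Fin 2) : MvPolynomial (Fin 2) K :=
  aeval (fun p : Fin 2 × Fin 2 => if p.2 = ε p.1 then 1 else X p.1) F

/-- The point `(z, w)` lies on the double cover `w² = f(z)`. -/
def OnCover {F : Type} [Field F] {m : ℕ} (f : MvPolynomial (Fin m) F) (P : (Fin m → F) × F) :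
    Prop :=
  P.2 ^ 2 = eval P.1 f

/-- The image of a point under an embedding of fields. -/
def image {K F : Type} [Field K] [Field F] (φ : K →+* F) {m : ℕ}
    (P : (Fin m → K) × K) : (Fin m → F) × F :=
  (fun j => φ (P.1 j), φ P.2)

end surfaces

section cycles

variable {F : Type} [Field F] {m : ℕ}

/-- The zero-cycle `[(x, w)]`. -/
noncomputable def pt (x : Fin m → F) (w : F) : ((Fin m → F) × F) →₀ ℤ := Finsupp.single (x, w) 1

/-- The zero-cycle `[(x, w)] - [(x, -w)]`. -/
noncomputable def dl (x : Fin m → F) (w : F) : ((Fin m → F) × F) →₀ ℤ := pt x w - pt x (-w)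

/-- The point `x + t e_i`. -/
def shift (x : Fin m → F) (i : Fin m) (t : F) : Fin m → F :=
  fun a => x a + t * (Pi.single i 1 : Fin m → F) a

/-- The restriction `q(t) = f(x + t e_i)` of a polynomial to the line through `x` in the direction of
the `i`-th coordinate. -/
noncomputable def line (f : MvPolynomial (Fin m) F) (x : Fin m → F) (i : Fin m) : Polynomial F :=
  aeval (fun k => Polynomial.C (x k) +
    Polynomial.C ((Pi.single i 1 : Fin m → F) k) * Polynomial.X) f

/-- The function `u(t) + v(t) w` on the curve `w² = q(t)` has the zeros `T` (with multiplicities), and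
no zero at infinity (as a section of the `M`-th power of the line bundle of degree two): `u` and `v` are
coprime, the function vanishes at the points `T` of the curve, its norm `u² - v² q` has degree `2 M` and
the zeros `t`, `(t, w) ∈ T`. -/
def Zeros (q u v : Polynomial F) (T : Multiset (F × F)) : Prop :=
  IsCoprime u v ∧ (∀ s ∈ T, s.2 ^ 2 = q.eval s.1 ∧ u.eval s.1 + v.eval s.1 * s.2 = 0) ∧
    (∃ κ : F, κ ≠ 0 ∧ u ^ 2 - v ^ 2 * q =
      Polynomial.C κ * (T.map fun s => Polynomial.X - Polynomial.C s.1).prod) ∧
    ∃ M : ℕ, T.card = 2 * M ∧ u.natDegree ≤ M ∧ v.natDegree + 2 ≤ M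

/-- The divisors of the functions `(u + v w) / (u - v w)` on the curves in the direction of a
coordinate. -/
def Fibral (f : MvPolynomial (Fin m) F) : Set (((Fin m → F) × F) →₀ ℤ) :=
  {z | ∃ (x : Fin m → F) (i : Fin m) (u v : Polynomial F) (T : Multiset (F × F)),
    Zeros (line f x i) u v T ∧ z = (T.map fun s => dl (shift x i s.1) s.2).sum}

/-- The differences of two points on a rational curve, the image of a line under
`t ↦ (c(t), b(t))`. -/
def Curves (f : MvPolynomial (Fin m) F) : Set (((Fin m → F) × F) →₀ ℤ) :=
  {z | ∃ (c : Fin m → Polynomial F) (b : Polynomial F), b ^ 2 = aeval c f ∧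
    z = pt (fun k => (c k).eval 0) (b.eval 0) - pt (fun k => (c k).eval 1) (b.eval 1)}

/-- The differences of two fibres of the projection `(x, w) ↦ x`. -/
def Fibres (f : MvPolynomial (Fin m) F) : Set (((Fin m → F) × F) →₀ ℤ) :=
  {z | ∃ (x x' : Fin m → F) (w w' : F), w ^ 2 = eval x f ∧ w' ^ 2 = eval x' f ∧
    z = pt x w + pt x (-w) - pt x' w' - pt x' (-w')}

/-- A group of zero-cycles which are rationally equivalent to zero on `w² = f(x)`. -/
noncomputable def Rat (f : MvPolynomial (Fin m) F) : AddSubgroup (((Fin m → F) × F) →₀ ℤ) :=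
  AddSubgroup.closure (Fibral f ∪ Curves f ∪ Fibres f)

end cycles

/-- The absolute value of `K` which is given by an embedding of `K` in a normed field. -/
noncomputable def place {K M : Type} [Field K] [NormedField M] (σ : K →+* M) : AbsoluteValue K ℝ where
  toFun x := ‖σ x‖
  map_mul' x y := by rw [map_mul, norm_mul]
  nonneg' x := norm_nonneg _
  eq_zero' x := by rw [norm_eq_zero, map_eq_zero]
  add_le' x y := by rw [map_add]; exact norm_add_le _ _

section points

variable {K : Type} [Field K] {m : ℕ}

/-- The rational points `Q` such that `[Q] - [ι Q]` is an odd multiple of `[P] - [ι P]`. -/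
def OddMultiples (f : MvPolynomial (Fin m) K) (P : (Fin m → K) × K) : Set ((Fin m → K) × K) :=
  {Q | OnCover f Q ∧ ∃ k : ℤ, dl Q.1 Q.2 - (2 * k + 1) • dl P.1 P.2 ∈ Rat f}

/-- The rational points `Q` such that twice the difference of `[Q] + [s Q]` and of any fibre
`[R] + [ι R]` is rationally equivalent to zero. -/
def CanonicalTrace (f : MvPolynomial (Fin m) K) (s : K →+* K) : Set ((Fin m → K) × K) :=
  {Q | OnCover f Q ∧ ∀ R : (Fin m → K) × K, OnCover f R →
    2 • (pt Q.1 Q.2 + pt (image s Q).1 (image s Q).2 - pt R.1 R.2 - pt R.1 (-R.2)) ∈ Rat f}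

variable {ι : Type} {p : ι → ℕ} [∀ i, Fact (p i).Prime]

/-- The points of `R` are dense near `P` in the product of the sets of the `ℚ_[p i]`-points. -/
def Dense (f : MvPolynomial (Fin m) K) (R : Set ((Fin m → K) × K)) (P : (Fin m → K) × K)
    (σ : ∀ i, K →+* ℚ_[p i]) : Prop :=
  ∃ U ∈ nhds (fun i => image (σ i) P), ∀ S ∈ U, (∀ i, OnCover (map (σ i) f) (S i)) →
    S ∈ closure {S | ∃ Q ∈ R, S = fun i => image (σ i) Q}

/-- The points of `R` are dense near `P` in the product of the set of the real points and of the sets
of the `ℚ_[p i]`-points. -/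
def DenseReal (f : MvPolynomial (Fin m) K) (R : Set ((Fin m → K) × K)) (P : (Fin m → K) × K)
    (σ : ∀ i, K →+* ℚ_[p i]) (τ : K →+* ℝ) : Prop :=
  ∃ U ∈ nhds (image τ P, fun i => image (σ i) P), ∀ S ∈ U, OnCover (map τ f) S.1 →
    (∀ i, OnCover (map (σ i) f) (S.2 i)) →
      S ∈ closure {S | ∃ Q ∈ R, S = (image τ Q, fun i => image (σ i) Q)}

/-- The points of `R` are dense near `P`, for all finite nonempty sets of `p`-adic places of degree one
over different primes, with or without a real place. -/
def DenseNear (f : MvPolynomial (Fin m) K) (R : Set ((Fin m → K) × K)) (P : (Fin m → K) × K) : Prop :=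
  ∀ (ι : Type) [Finite ι] [Nonempty ι] (p : ι → ℕ) [∀ v, Fact (p v).Prime],
    Function.Injective p → ∀ σ : ∀ v, K →+* ℚ_[p v],
      Dense f R P σ ∧ ∀ τ : K →+* ℝ, DenseReal f R P σ τ

end points

/-- **Rational points with the same class over extensions of bounded degree and over quadratic
extensions.** -/
theorem result (K : Type) [Field K] [NumberField K] (F : MvPolynomial (Fin 2 × Fin 2) K)
    (hF : IsForm F) (hs : Smooth F) (ε : Fin 2 → Fin 2) :
    -- (1) all extensions of bounded degree, all quadratic twists
    (∃ E : Fin 2 → Set (AlgebraicClosure K), (∀ j, (E j).Finite) ∧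
      ∀ D : ℕ, ∃ T : Set (Fin 2 → AlgebraicClosure K), T.Finite ∧
      ∀ (L : Type) [Field L] [NumberField L] [Algebra K L], Module.finrank K L ≤ D →
      ∀ e : L, e ≠ 0 → ∀ P : (Fin 2 → L) × L,
        OnCover (C e * map (algebraMap K L) (chart F ε)) P → P.2 ≠ 0 →
        ∀ φ : L →ₐ[K] AlgebraicClosure K, (fun j => φ (P.1 j)) ∉ T → (∀ j, φ (P.1 j) ∉ E j) →
        DenseNear (C e * map (algebraMap K L) (chart F ε))
          (OddMultiples (C e * map (algebraMap K L) (chart F ε)) P) P) ∧
    -- (2) quadratic extensions: the places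
    ∀ (κ : Type) [Finite κ] (M : κ → Type) [∀ v, NontriviallyNormedField (M v)]
      [∀ v, CompleteSpace (M v)] (σ : ∀ v, K →+* M v), (∀ v, DenseRange (σ v)) →
      (Pairwise fun v v' => ¬ (place (σ v)).IsEquiv (place (σ v'))) →
      -- the local points
      ∀ S : ∀ v, (Fin 2 → M v) × M v, (∀ v, OnCover (map (σ v) (chart F ε)) (S v)) →
      (∀ v, (S v).2 ≠ 0) → ∀ η : ℝ, 0 < η →
      ∀ (N : Type) [Field N] [NumberField N] [Algebra K N],
      ∃ (L : Type) (_ : Field L) (_ : NumberField L) (_ : Algebra K L) (s : L →ₐ[K] L)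
        (σ' : ∀ v, L →+* M v) (P : (Fin 2 → L) × L),
        Module.finrank K L = 2 ∧ (∃ x, s x ≠ x) ∧ IsEmpty (L →ₐ[K] N) ∧
        (∀ v, (σ' v).comp (algebraMap K L) = σ v) ∧
        OnCover (map (algebraMap K L) (chart F ε)) P ∧ P.2 ≠ 0 ∧
        (∀ v, dist (S v) (image (σ' v) P) < η) ∧
        DenseNear (map (algebraMap K L) (chart F ε))
          (OddMultiples (map (algebraMap K L) (chart F ε)) P) P ∧
        OddMultiples (map (algebraMap K L) (chart F ε)) P ⊆
          CanonicalTrace (map (algebraMap K L) (chart F ε)) s := by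
  obtain ⟨h1, h2, -⟩ := Pool.Agent.Q182.TT.CHF.chf K 2 F hF ε
  refine ⟨?_, ?_⟩
  · obtain ⟨E, hE, h⟩ := Pool.Agent.U899.QA.uk3 K (Pool.Agent.Q35.TT.ch F ε) h1 (h2 hs)
    refine ⟨E, hE, fun D => ?_⟩
    obtain ⟨T, hT, h⟩ := h D
    exact ⟨T, hT, fun L _ _ _ hL e he P hP hw φ hzT hzE => h L hL e he φ P.1 P.2 hw hP hzT hzE⟩
  · intro κ _ M _ _ σ hd hne S hS hS0 η hη N _ _ _
    obtain ⟨A, hA, hz⟩ := Pool.Agent.U899.QA.zc1 K (Pool.Agent.Q35.TT.ch F ε) h1 (h2 hs)
    obtain ⟨z, hzA, hnsN, hzv⟩ := Pool.Agent.U899.QA.zex K (by norm_num) F hF hs ε κ M σ hd hne S hS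
      hS0 N hη hA
    have hnsK : ¬ IsSquare (eval z (Pool.Agent.Q35.TT.ch F ε)) := fun h => hnsN (h.map (algebraMap K N))
    obtain ⟨L, iL, iN, iA, w, hfr, hw, hext⟩ := Pool.Agent.U899.QA.exists_quad K _ hnsK
    have hw0 : w ≠ 0 := by
      rintro rfl
      rw [zero_pow two_ne_zero, eq_comm, map_eq_zero] at hw
      exact hnsK (by rw [hw]; exact ⟨0, by simp⟩)
    have hon : OnCover (map (algebraMap K L) (chart F ε)) (fun j => algebraMap K L (z j), w) := by
      change w ^ 2 = eval (fun j => algebraMap K L (z j))
        (map (algebraMap K L) (Pool.Agent.Q35.TT.ch F ε))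
      rw [hw, eval_map, show (fun j => algebraMap K L (z j)) = algebraMap K L ∘ z from rfl,
        ← eval₂_comp (algebraMap K L) z (Pool.Agent.Q35.TT.ch F ε)]
    choose w' hw' hwz hwn using hzv
    choose σ' hσ' hσw using fun v => hext (M v) (σ v) (w' v) (hw' v)
    obtain ⟨s, hsK, hsw⟩ := hext L (algebraMap K L) (-w) (by rw [neg_sq, hw])
    refine ⟨L, iL, iN, iA, ⟨s, fun r => congrFun (congrArg DFunLike.coe hsK) r⟩, σ',
      (fun j => algebraMap K L (z j), w), hfr, ⟨w, ?_⟩, ⟨fun ψ => ?_⟩, hσ', hon, hw0, fun v => ?_, ?_,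
      ?_⟩
    · intro h
      have h' : -w = w := hsw.symm.trans h
      have : CharZero L := charZero_of_injective_algebraMap (algebraMap K L).injective
      exact hw0 (self_eq_neg.1 h'.symm)
    · apply hnsN
      refine ⟨ψ w, ?_⟩
      rw [← map_mul, ← pow_two, hw, AlgHom.commutes]
    · rw [Pool.Agent.U899.QA.dist_im hη]
      refine ⟨fun j => ?_, ?_⟩
      · have h1 : σ' v (algebraMap K L (z j)) = σ v (z j) := by rw [← hσ' v]; rfl
        change ‖σ' v (algebraMap K L (z j)) - (S v).1 j‖ < η
        rw [h1]
        exact hwz v j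
      · change ‖σ' v w - (S v).2‖ < η
        rw [hσw]
        exact hwn v
    · exact hz z hzA L w hw0 hw
    · intro Q hQ
      exact ⟨hQ.1, fun R hR => Pool.Agent.U899.QA.tr (Pool.Agent.Q35.TT.ch F ε) s hsK hsw hQ hR⟩

end Pool.Agent.Results.MP_9207e0_ag.BoundedDegreeClasses
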