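import Pool.Agent.U199.ZT.T

/-!
# Kummer surfaces: rational points in the odd multiples of a class, real components and `p`-adic points

`K` is a number field and `a_0`, `a_1` are polynomials of degree at most four over `K` with nonzero
discriminant (of quartic forms). For `e ∈ Kˣ` the surface `X_e : w² = e a_0(x_0) a_1(x_1)` is a Kummer
surface: its minimal model is the K3 surface attached to the product of the two curves `u² = a_j(x)` of
genus one, divided by `(u_0, u_1) ↦ (-u_0, -u_1)`, and its twists by `e`. The branch curve consists of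
eight lines with sixteen nodes, so that these surfaces are not among the K3 double covers with a smooth
branch curve of the files `EquivalentPointsDense` and `RealComponents`. Let `ι` be the involution
`w ↦ -w`. Twice the class of a point `P` is `[P] - [ι P]` up to a constant class (the class of a fibre of
`X_e → ℙ¹ × ℙ¹`), so that the question asks whether all the classes `[P] - [ι P]` are torsion.

**Theorem.** There are finite sets `E(a)` of exceptional coordinates, for all polynomials `a` with nonzero
discriminant, such that for all pairs `(a_0, a_1)`, all twists `e`, all real embeddings of `K` and all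
finite families of `p`-adic places of degree one the following hold.

1. Let `R` be a set of rational points which contains with `P` all `Q` such that `[Q] - [ι Q]` is an odd
   multiple of `[P] - [ι P]` (for example the central points: those for which a multiple of `[P] - [ι P]`
   is rationally equivalent to zero over the algebraic closure), and let `Z` be the closure in
   `X_e(ℝ) × ∏ X_e(ℚ_[p v])` of the points of `R` with `w ≠ 0`, `x_j ∉ E(a_j)`. If `(x, y) ∈ Z` and `M` is
   a connected set of smooth real points with `x ∈ M`, then `M × {y} ⊆ Z`.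
2. Let `P` be a rational point with `w ≠ 0`, `x_j ∉ E(a_j)`, and `M` a connected set of smooth real points
   which contains `P`. The rational points `Q` such that `[Q] - [ι Q]` is an odd multiple of `[P] - [ι P]`
   are dense in `M × {P}`; if the primes `p v` are distinct then they are dense in `M × U`, where `U` is a
   neighbourhood of `P` in `∏ X_e(ℚ_[p v])` which does not depend on `M`. If `P` is central then all these
   `Q` are central.

Proof. The fibres of the two projections are twists of the two curves. For `x_i ∉ E(a_i)` (which means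
that the divisor class of `(x_i, a_i(x_i)) - (x_i, - a_i(x_i))` on `u² = a_i(x_i) a_i(t)` has infinite
order) the class `D` of `P - ι P` on the fibre in the direction `i` has infinite order. For suitable
`N > 0` all multiples of `N D` are close to zero at the `p`-adic places, and they are dense in the identity
component of the real points. So one can move in the real interval on which `e a_0 a_1` is positive, and
change the sign of the real coordinate `w` if there is a real zero on the line, without moving at the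
`p`-adic places; the points of these moves have classes which are odd multiples of `[P] - [ι P]`. Near a
smooth point of the branch curve this shows that the set of the points which are reached is open.
-/

set_option autoImplicit false

namespace Pool.Agent.Results.MP_9207e0_ag.KummerClasses

open MvPolynomial Pool.Agent.Results.MP_9207e0_ag.EquivalentPointsDense

/-- The discriminant of the quartic form with the coefficients `a`. -/
def discriminant {K : Type} [Field K] (a : Fin 5 → K) : K :=
  256 * a 4 ^ 3 * a 0 ^ 3 - 192 * a 4 ^ 2 * a 3 * a 1 * a 0 ^ 2 - 128 * a 4 ^ 2 * a 2 ^ 2 * a 0 ^ 2 +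
    144 * a 4 ^ 2 * a 2 * a 1 ^ 2 * a 0 - 27 * a 4 ^ 2 * a 1 ^ 4 + 144 * a 4 * a 3 ^ 2 * a 2 * a 0 ^ 2 -
    6 * a 4 * a 3 ^ 2 * a 1 ^ 2 * a 0 - 80 * a 4 * a 3 * a 2 ^ 2 * a 1 * a 0 +
    18 * a 4 * a 3 * a 2 * a 1 ^ 3 + 16 * a 4 * a 2 ^ 4 * a 0 - 4 * a 4 * a 2 ^ 3 * a 1 ^ 2 -
    27 * a 3 ^ 4 * a 0 ^ 2 + 18 * a 3 ^ 3 * a 2 * a 1 * a 0 - 4 * a 3 ^ 3 * a 1 ^ 3 -
    4 * a 3 ^ 2 * a 2 ^ 3 * a 0 + a 3 ^ 2 * a 2 ^ 2 * a 1 ^ 2

/-- The polynomial `e a_0(x_0) a_1(x_1)`, where `a_j(x) = ∑ a j k x^k` has degree at most four. -/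
noncomputable def kummer {K : Type} [Field K] (e : K) (a : Fin 2 → Fin 5 → K) :
    MvPolynomial (Fin 2) K :=
  C e * ∏ j, ∑ k : Fin 5, C (a j k) * X j ^ (k : ℕ)

/-- `R` is a set of rational points of `w² = g(x)` which contains with `P` all rational points `Q` such
that `[Q] - [ι Q]` is an odd multiple of `[P] - [ι P]`. -/
def OddClosed {K : Type} [Field K] (g : MvPolynomial (Fin 2) K) (R : Set ((Fin 2 → K) × K)) : Prop :=
  ∀ P ∈ R, OnCover g P ∧ OddMultiples g P ⊆ R

/-- The points of `R` with `w ≠ 0` outside the lines `x_j = c`, `c ∈ E j`. -/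
def outside {K : Type} [Field K] (E : Fin 2 → Set K) (R : Set ((Fin 2 → K) × K)) :
    Set ((Fin 2 → K) × K) :=
  {P | P ∈ R ∧ P.2 ≠ 0 ∧ ∀ j, P.1 j ∉ E j}

/-- The closure of a set of `K`-points in the product of the set of the real points and of the sets of
the `ℚ_[p v]`-points. -/
def Closure {K : Type} [Field K] {ι : Type} {p : ι → ℕ} [∀ v, Fact (p v).Prime] (τ : K →+* ℝ)
    (σ : ∀ v, K →+* ℚ_[p v]) (R : Set ((Fin 2 → K) × K)) :
    Set (((Fin 2 → ℝ) × ℝ) × ∀ v, (Fin 2 → ℚ_[p v]) × ℚ_[p v]) :=
  closure {S | ∃ P ∈ R, S = (image τ P, fun v => image (σ v) P)}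

/-- `M` is a connected (or empty) set of smooth real points of `w² = g(x)`. -/
def ConnectedSmooth (g : MvPolynomial (Fin 2) ℝ) (M : Set ((Fin 2 → ℝ) × ℝ)) : Prop :=
  IsPreconnected M ∧ ∀ S ∈ M, OnCover g S ∧ (S.2 ≠ 0 ∨ ∃ k, eval S.1 (pderiv k g) ≠ 0)

/-- **Classes of zero-cycles, real components and `p`-adic points on Kummer surfaces.** -/
theorem result (K : Type) [Field K] [NumberField K] :
    ∃ E : (Fin 5 → K) → Set K, (∀ a, discriminant a ≠ 0 → (E a).Finite) ∧
      ∀ a : Fin 2 → Fin 5 → K, (∀ j, discriminant (a j) ≠ 0) → ∀ e : K, e ≠ 0 →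
      ∀ (τ : K →+* ℝ) (ι : Type) [Finite ι] (p : ι → ℕ) [∀ v, Fact (p v).Prime]
        (σ : ∀ v, K →+* ℚ_[p v]),
        -- (1) sets which are closed under odd multiples
        (∀ R, OddClosed (kummer e a) R → ∀ x y,
          (x, y) ∈ Closure τ σ (outside (fun j => E (a j)) R) →
          ∀ M, ConnectedSmooth (map τ (kummer e a)) M → x ∈ M →
            ∀ x' ∈ M, (x', y) ∈ Closure τ σ (outside (fun j => E (a j)) R)) ∧
        -- (2) the odd multiples of the class of a rational point
        ∀ P, OnCover (kummer e a) P → P.2 ≠ 0 → (∀ j, P.1 j ∉ E (a j)) →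
          (∀ M, ConnectedSmooth (map τ (kummer e a)) M → image τ P ∈ M →
            ∀ x ∈ M, (x, fun v => image (σ v) P) ∈ Closure τ σ (OddMultiples (kummer e a) P)) ∧
          (Nonempty ι → Function.Injective p → ∃ U ∈ nhds (fun v => image (σ v) P),
            ∀ M, ConnectedSmooth (map τ (kummer e a)) M → image τ P ∈ M →
              ∀ x ∈ M, ∀ y ∈ U, (∀ v, OnCover (map (σ v) (kummer e a)) (y v)) →
                (x, y) ∈ Closure τ σ (OddMultiples (kummer e a) P)) ∧
          (P ∈ Central (kummer e a) → OddMultiples (kummer e a) P ⊆ Central (kummer e a)) := by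
  have hdisc : ∀ a : Fin 5 → K, discriminant a ≠ 0 → Pool.Agent.U199.ZS.Kum.Dc a := by
    intro a ha h0
    apply ha
    rw [← h0]
    unfold discriminant Pool.Agent.Y720.MZ.dc Pool.Agent.Y720.MZ.dsc
    ring
  refine ⟨Pool.Agent.U199.ZS.Kum.E, fun a ha => Pool.Agent.U199.ZS.Kum.fin_E (hdisc a ha), ?_⟩
  intro a ha e he τ ι _ p _ σ
  have hv := fun j => hdisc (a j) (ha j)
  have hk : kummer e a = C e * Pool.Agent.U199.ZS.Kum.G a := by
    rw [kummer, Fin.prod_univ_two]
    rfl
  rw [hk]
  have part1 : ∀ R, OddClosed (C e * Pool.Agent.U199.ZS.Kum.G a) R → ∀ x y,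
      (x, y) ∈ Closure τ σ (outside (fun j => Pool.Agent.U199.ZS.Kum.E (a j)) R) →
      ∀ M, ConnectedSmooth (map τ (C e * Pool.Agent.U199.ZS.Kum.G a)) M → x ∈ M →
        ∀ x' ∈ M, (x', y) ∈ Closure τ σ (outside (fun j => Pool.Agent.U199.ZS.Kum.E (a j)) R) :=
    fun R hR x y hxy M hM hx =>
      Pool.Agent.U199.ZT.compT τ σ hv (fun i => Pool.Agent.U199.ZS.Kum.fin_E (hv i))
        (fun i => le_rfl) he (R := R) hR hxy hM.1 (fun T hT => (hM.2 T hT).1)
        (fun T hT => (hM.2 T hT).2) hx
  refine ⟨part1, fun P hP hw hE => ⟨fun M hM hPM x hx => ?_, fun hne hp => ?_, fun hc =>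
    Pool.Agent.Q35.ZC.odds_ct Pool.Agent.U199.ZR.hM hc⟩⟩
  · have hPin : P ∈ outside (fun j => Pool.Agent.U199.ZS.Kum.E (a j))
        (OddMultiples (C e * Pool.Agent.U199.ZS.Kum.G a) P) :=
      ⟨Pool.Agent.U199.ZR.odds_self hP, hw, hE⟩
    refine closure_mono ?_ (part1 (OddMultiples (C e * Pool.Agent.U199.ZS.Kum.G a) P)
      (Pool.Agent.U199.ZT.oc_odds P) _ _ (subset_closure ⟨P, hPin, rfl⟩) M hM hPM x hx)
    rintro _ ⟨Q, hQ, rfl⟩
    exact ⟨Q, hQ.1, rfl⟩
  · obtain ⟨U, hU, hU'⟩ := Pool.Agent.U199.ZT.nearT hp τ σ hv he (P := P) ⟨hP, hw, hE⟩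
    exact ⟨U, hU, fun M hM hPM x hx y hy hyon => hU' M hM.1 (fun T hT => (hM.2 T hT).1)
      (fun T hT => (hM.2 T hT).2) hPM x hx y hy hyon⟩

end Pool.Agent.Results.MP_9207e0_ag.KummerClasses
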