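import Pool.Agent.U199.ZR.I
import Pool.Agent.Results.MP_9207e0_ag.EquivalentPointsDense

/-!
# K3 surfaces: rationally equivalent rational points are dense in connected components of the real points

`K` is a number field and `F` is a form over `K` of bidegree `(4, 4)` such that the curve `F = 0` in
`ℙ¹ × ℙ¹` is smooth. For `e ∈ Kˣ` the double cover `X_e : w² = e F(x)` of `ℙ¹ × ℙ¹` is a K3 surface; let
`ι` be its involution `w ↦ -w`. As in the file `EquivalentPointsDense` of the starting library a rational
point `Q` is *central* if a positive multiple of `[Q] - [ι Q]` is rationally equivalent to zero over the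
algebraic closure; by Roitman and Beauville-Voisin these are the rational points in the class `c_X`, and
the conjecture says that all rational points are central. We work in the four standard affine charts.

**Theorem.**
1. There are a finite set `T` of points and finitely many fibres `E` of the two projections such that for
   all real embeddings `τ` of `K`, all `e`, and all rational points `P` of `X_e`, `w ≠ 0`, which do not lie
   over `T` and `E`: the rational points `Q` such that `[Q] - [ι Q]` is an odd multiple of `[P] - [ι P]` in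
   the Chow group of zero-cycles are dense in the whole connected component of the set of the real points
   which contains `P`. If `P` is central then so are these `Q`.
   More generally let `R` be any set of rational points of `X_e` which contains with `P` all `Q` such that
   `[Q] - [ι Q]` is an odd multiple of `[P] - [ι P]` (for example the set of all central points). Then the
   closure of the set of the points of `R` with `w ≠ 0` outside `T` and `E`, in the set of the real
   points, is a union of connected components.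
2. If the line `x_j = c`, `c ∈ K`, is tangent to the curve `F = 0` (so that the fibre of `X_e` over it is
   singular), then all its rational points are central, and for all but finitely many of them the central
   rational points are dense in the whole connected component, for all real embeddings of `K`.
3. Let `τ` be a real embedding of `K`. For every connected component of the set of the real points of
   `X_e` which contains a point with `w ≠ 0` of a singular fibre of one of the two elliptic fibrations there
   is a finite extension `K'` of `K` with a real embedding which extends `τ`, such that the central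
   `K'`-points are dense in the whole component.

The theorem of the starting library gives the density near `P` only, in a neighbourhood without control,
but also for `p`-adic places. Idea of the proof. Let `P` be a rational point of infinite order in the
direction `i` (that is, the class of `P - ι P` in the Jacobian of the curve of genus one through `P` in this
direction). The multiples of this class are dense in the identity component of the real points
of the Jacobian, so that the points which are linearly equivalent to `P + m (P - ι P)` are dense in the whole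
interval around `P` on which `e F` is positive. Outside finitely many of them the other direction is of
infinite order. So in every box around a real point on which `e F` is positive, one point of `R` gives a
dense set of points of `R`; since the size of the box depends on `e F` only, the closure is open. Near a
smooth point of the branch curve the region `e F > 0` is connected. For (3) the discriminant shows that the
tangent lines have algebraic coordinates, and a real square root gives a point on the fibre.
-/

set_option autoImplicit false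

namespace Pool.Agent.Results.MP_9207e0_ag.RealComponents

open MvPolynomial Pool.Agent.Results.MP_9207e0_ag.EquivalentPointsDense

section defs

variable {K : Type} [Field K]

/-- The real points given by a set of rational points, for a real embedding of the base field. -/
def realPoints (τ : K →+* ℝ) (R : Set ((Fin 2 → K) × K)) : Set ((Fin 2 → ℝ) × ℝ) :=
  {S | ∃ Q ∈ R, S = image τ Q}

/-- `M` is a connected (or empty) set of real points of `w² = g(x)`. -/
def ConnectedReal (τ : K →+* ℝ) (g : MvPolynomial (Fin 2) K) (M : Set ((Fin 2 → ℝ) × ℝ)) : Prop :=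
  IsPreconnected M ∧ ∀ S ∈ M, OnCover (map τ g) S

/-- `R` is a set of rational points of `w² = g(x)` which contains with `P` all rational points `Q` such
that `[Q] - [ι Q]` is an odd multiple of `[P] - [ι P]`. -/
def OddClosed (g : MvPolynomial (Fin 2) K) (R : Set ((Fin 2 → K) × K)) : Prop :=
  ∀ P ∈ R, OnCover g P ∧ OddMultiples g P ⊆ R

/-- The points with `w ≠ 0` outside the finite set `T` and the lines `x_j = c`, `c ∈ E j`. -/
def outside (T : Set (Fin 2 → K)) (E : Fin 2 → Set K) (R : Set ((Fin 2 → K) × K)) :
    Set ((Fin 2 → K) × K) :=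
  {Q | Q ∈ R ∧ Q.2 ≠ 0 ∧ Q.1 ∉ T ∧ ∀ j, Q.1 j ∉ E j}

/-- The line through the real point `x` in the direction of one of the coordinates is tangent to the
curve `f = 0` at a complex point. -/
def OnTangentLine (τ : K →+* ℝ) (f : MvPolynomial (Fin 2) K) (x : Fin 2 → ℝ) : Prop :=
  ∃ (i : Fin 2) (y : Fin 2 → ℂ), (∀ j, j ≠ i → y j = x j) ∧ aeval y (map τ f) = 0 ∧
    aeval y (map τ (pderiv i f)) = 0

end defs

open Pool.Agent.U199.ZR in
/-- The theorem, for one chart. -/
theorem result_chart (K : Type) [Field K] [NumberField K] (f : MvPolynomial (Fin 2) K)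
    (hd : ∀ j, f.degreeOf j ≤ 4) (hsm : Pool.Agent.Q35.TT.SmoothN f) :
    (∃ (T : Set (Fin 2 → K)) (E : Fin 2 → Set K), T.Finite ∧ (∀ j, (E j).Finite) ∧
      ∀ (τ : K →+* ℝ) (e : K), e ≠ 0 →
        (∀ P : (Fin 2 → K) × K, OnCover (C e * f) P → P.2 ≠ 0 → P.1 ∉ T → (∀ j, P.1 j ∉ E j) →
          (∀ M, ConnectedReal τ (C e * f) M → image τ P ∈ M →
            M ⊆ closure (realPoints τ (OddMultiples (C e * f) P))) ∧
          (P ∈ Central (C e * f) → OddMultiples (C e * f) P ⊆ Central (C e * f))) ∧
        ∀ R, OddClosed (C e * f) R → ∀ M, ConnectedReal τ (C e * f) M →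
          (M ∩ closure (realPoints τ (outside T E R))).Nonempty →
            M ⊆ closure (realPoints τ (outside T E R))) ∧
    (∀ (e : K) (i j : Fin 2) (c : K), e ≠ 0 → i ≠ j →
      (∃ y : Fin 2 → AlgebraicClosure K, y j = toC K c ∧ aeval y f = 0 ∧
        aeval y (pderiv i f) = 0) →
      (∀ P, OnCover (C e * f) P → P.1 j = c → P ∈ Central (C e * f)) ∧
      ∃ S : Set K, S.Finite ∧ ∀ P, OnCover (C e * f) P → P.1 j = c → P.1 i ∉ S →
        P.2 ≠ 0 ∧ ∀ (τ : K →+* ℝ) (M : Set ((Fin 2 → ℝ) × ℝ)), ConnectedReal τ (C e * f) M →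
          image τ P ∈ M → M ⊆ closure (realPoints τ (Central (C e * f)))) ∧
    ∀ (τ : K →+* ℝ) (e : K), e ≠ 0 → ∀ S : (Fin 2 → ℝ) × ℝ, OnCover (map τ (C e * f)) S → S.2 ≠ 0 →
      OnTangentLine τ f S.1 →
      ∃ (K' : Type) (_ : Field K') (_ : NumberField K') (φ : K →+* K') (τ' : K' →+* ℝ),
        τ'.comp φ = τ ∧ ∀ M, ConnectedReal τ (C e * f) M → S ∈ M →
          M ⊆ closure (realPoints τ' (Central (map φ (C e * f)))) := by
  classical
  refine ⟨?_, ?_, ?_⟩
  · set T : Set (Fin 2 → K) := {z | ∀ i, Pool.Agent.Q35.TT.TorN f z i} with hT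
    set E : Fin 2 → Set K := fun j => {c | ∃ i, i ≠ j ∧ ∃ x : Fin 2 → K, x j = c ∧ ¬ Reg f x i j} with hE
    have hTf : T.Finite := h1 K 2 f hd hsm
    have hEf : ∀ j, (E j).Finite := by
      intro j
      have h5 : (⋃ i ∈ {i : Fin 2 | i ≠ j}, {c | ∃ x : Fin 2 → K, x j = c ∧ ¬ Reg f x i j}).Finite :=
        (Set.toFinite _).biUnion fun i hi => fin_reg h3 hd hsm i j hi
      refine h5.subset ?_
      rintro c ⟨i, hi, x, hx, hn⟩
      exact Set.mem_iUnion₂.2 ⟨i, hi, x, hx, hn⟩
    have hstart : ∀ z : Fin 2 → K, z ∉ T → (∀ j, z j ∉ E j) → Start f z := by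
      intro z hz hzE
      rw [hT, Set.mem_ofPred_eq] at hz
      push Not at hz
      obtain ⟨i, hi⟩ := hz
      obtain ⟨j, hij⟩ : ∃ j : Fin 2, i ≠ j := by
        fin_cases i
        · exact ⟨1, by decide⟩
        · exact ⟨0, by decide⟩
      refine ⟨i, j, hij, hi, ?_⟩
      by_contra hcon
      exact hzE j ⟨i, hij, z, rfl, hcon⟩
    set B : Set K := (fun z : Fin 2 → K => z 0) '' T ∪ ⋃ j, E j with hB
    have hBf : B.Finite := (hTf.image _).union (Set.finite_iUnion hEf)
    have main : ∀ (τ : K →+* ℝ) (e : K), e ≠ 0 → ∀ R, OddClosed (C e * f) R →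
        ∀ M, ConnectedReal τ (C e * f) M → (M ∩ closure (realPoints τ (outside T E R))).Nonempty →
          M ⊆ closure (realPoints τ (outside T E R)) := by
      intro τ e he R hR M hM hne
      have h5 : realPoints τ (outside T E R) ⊆ rp τ (RS f R) := by
        rintro _ ⟨Q, hQ, rfl⟩
        exact ⟨Q, ⟨hQ.1, hQ.2.1, hstart _ hQ.2.2.1 hQ.2.2.2⟩, rfl⟩
      have h6 : rp τ (RB f R B) ⊆ realPoints τ (outside T E R) := by
        rintro _ ⟨Q, hQ, rfl⟩
        refine ⟨Q, ⟨hQ.1, hQ.2.1, fun h => hQ.2.2.2 0 (Or.inl ⟨_, h, rfl⟩), fun j h =>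
          hQ.2.2.2 j (Or.inr (Set.mem_iUnion.2 ⟨j, h⟩))⟩, rfl⟩
      exact (comp0 hS h2 h3 h4 τ hd hsm he (R := R) hR hBf hM.1 hM.2
        (hne.mono (Set.inter_subset_inter_right _ (closure_mono h5)))).trans (closure_mono h6)
    refine ⟨T, E, hTf, hEf, fun τ e he => ⟨fun P hP hw hPT hPE => ⟨fun M hM hPM => ?_, fun hc =>
      Pool.Agent.Q35.ZC.odds_ct hM hc⟩, main τ e he⟩⟩
    have hR : OddClosed (C e * f) (OddMultiples (C e * f) P) := fun Q hQ =>
      ⟨hQ.1, fun Q' hQ' => odds_trans hQ hQ'⟩
    have hPin : P ∈ outside T E (OddMultiples (C e * f) P) := ⟨odds_self hP, hw, hPT, hPE⟩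
    refine (main τ e he _ hR M hM ⟨_, hPM, subset_closure ⟨P, hPin, rfl⟩⟩).trans (closure_mono ?_)
    rintro _ ⟨Q, hQ, rfl⟩
    exact ⟨Q, hQ.1, rfl⟩
  · intro e i j c he hij ht
    obtain ⟨y, hy, h6, h7⟩ := ht
    have hij' : ∀ k : Fin 2, k ≠ i → k = j := by
      intro k hk
      have := hij
      omega
    have htg : Tg f (fun _ => c) i := by
      refine (tg_map (Pool.Agent.Q35.ZC.toC K)).1 (tg_of_root (y := y) (fun k hk => ?_) ?_ ?_)
      · rw [hij' k hk]
        exact hy
      · rw [eval_map]; exact h6
      · rw [pderiv_map, eval_map]; exact h7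
    have hcen : ∀ P, OnCover (C e * f) P → P.1 j = c → P ∈ Central (C e * f) := by
      rintro ⟨z, w⟩ hP hj
      have hj' : z j = c := hj
      exact ct_tg hd hP (tg_line (fun k hk => by rw [hij' k hk, hj']) htg)
    obtain ⟨S, hSf, hstart⟩ := start_tg hd hsm hij htg
    -- the points of the branch curve
    have hne : Pool.Agent.Q35.TT.lc f (Pool.Agent.Q35.TT.af fun _ : Fin 2 => c) i ≠ 0 :=
      (Pool.Agent.Q35.ZC.ndt2 K f hd hsm i j hij (fun _ => c) ⟨y, hy, h6, h7⟩).2
    have hfin3 : {t : K | (Pool.Agent.Q35.TT.pq
        (Pool.Agent.Q35.TT.lc f (Pool.Agent.Q35.TT.af fun _ : Fin 2 => c) i)).eval t = 0}.Finite :=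
      Polynomial.finite_setOfPred_isRoot (Pool.Agent.Q35.ZC.pq_ne hne)
    refine ⟨hcen, _, hSf.union hfin3, fun P hP hj hi => ?_⟩
    rw [Set.mem_union, not_or] at hi
    have hP' : P.2 ^ 2 = eval P.1 (C e * f) := hP
    have hw : P.2 ≠ 0 := by
      intro h0
      apply hi.2
      rw [Set.mem_ofPred_eq, Pool.Agent.Q121.TT.pq_eval]
      rw [h0, zero_pow two_ne_zero, map_mul, eval_C, Pool.Agent.Q222.TT.Opn.eval_lc hd P.1 i,
        Pool.Agent.Q222.TT.Opn.lc_line hd P.1 (fun _ => c) i fun k hk => by rw [hij' k hk, hj]] at hP'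
      exact (mul_eq_zero.1 hP'.symm).resolve_left he
    refine ⟨hw, fun τ M hM hPM => ?_⟩
    have hRS : P ∈ RS f (Pool.Agent.Q35.ZC.CT (C e * f)) := ⟨hcen P hP hj, hw, hstart _ hj hi.1⟩
    refine (comp0 hS h2 h3 h4 τ hd hsm he (ct_odd _) Set.finite_empty hM.1 hM.2
      ⟨_, hPM, subset_closure ⟨P, hRS, rfl⟩⟩).trans (closure_mono ?_)
    rintro _ ⟨Q, hQ, rfl⟩
    exact ⟨Q, hQ.1, rfl⟩
  · intro τ e he S hS' hw ht
    obtain ⟨i, y, hy, h6, h7⟩ := ht
    have htg : Tg (map τ f) S.1 i := by
      refine (tg_map (algebraMap ℝ ℂ)).1 (tg_of_root (y := y) hy ?_ ?_)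
      · rw [eval_map]; exact h6
      · rw [pderiv_map, eval_map, pderiv_map]; exact h7
    obtain ⟨K', i1, i2, φ, τ', hφ, h8⟩ := exist_real τ hd hsm he (x := S.1) (y := S.2) htg hw hS'
    exact ⟨K', i1, i2, φ, τ', hφ, fun M hM hSM => h8 M hM.1 hM.2 hSM⟩

/-- **Rationally equivalent rational points are dense in connected components of the real points.** -/
theorem result (K : Type) [Field K] [NumberField K] (F : MvPolynomial (Fin 2 × Fin 2) K)
    (hF : IsForm F) (hs : Smooth F) (ε : Fin 2 → Fin 2) :
    -- (1) outside finitely many points and lines the odd multiples of the class of `P` are dense in the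
    -- whole component; a set which is closed under odd multiples
    (∃ (T : Set (Fin 2 → K)) (E : Fin 2 → Set K), T.Finite ∧ (∀ j, (E j).Finite) ∧
      ∀ (τ : K →+* ℝ) (e : K), e ≠ 0 →
        (∀ P : (Fin 2 → K) × K, OnCover (C e * chart F ε) P → P.2 ≠ 0 → P.1 ∉ T →
          (∀ j, P.1 j ∉ E j) →
          (∀ M, ConnectedReal τ (C e * chart F ε) M → image τ P ∈ M →
            M ⊆ closure (realPoints τ (OddMultiples (C e * chart F ε) P))) ∧
          (P ∈ Central (C e * chart F ε) →
            OddMultiples (C e * chart F ε) P ⊆ Central (C e * chart F ε))) ∧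
        ∀ R, OddClosed (C e * chart F ε) R → ∀ M, ConnectedReal τ (C e * chart F ε) M →
          (M ∩ closure (realPoints τ (outside T E R))).Nonempty →
            M ⊆ closure (realPoints τ (outside T E R))) ∧
    -- (2) the points over a rational tangent line
    (∀ (e : K) (i j : Fin 2) (c : K), e ≠ 0 → i ≠ j →
      (∃ y : Fin 2 → AlgebraicClosure K, y j = toC K c ∧ aeval y (chart F ε) = 0 ∧
        aeval y (pderiv i (chart F ε)) = 0) →
      (∀ P, OnCover (C e * chart F ε) P → P.1 j = c → P ∈ Central (C e * chart F ε)) ∧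
      ∃ S : Set K, S.Finite ∧ ∀ P, OnCover (C e * chart F ε) P → P.1 j = c → P.1 i ∉ S →
        P.2 ≠ 0 ∧ ∀ (τ : K →+* ℝ) (M : Set ((Fin 2 → ℝ) × ℝ)),
          ConnectedReal τ (C e * chart F ε) M → image τ P ∈ M →
            M ⊆ closure (realPoints τ (Central (C e * chart F ε)))) ∧
    -- (3) over finite real extensions
    ∀ (τ : K →+* ℝ) (e : K), e ≠ 0 → ∀ S : (Fin 2 → ℝ) × ℝ,
      OnCover (map τ (C e * chart F ε)) S → S.2 ≠ 0 → OnTangentLine τ (chart F ε) S.1 →
      ∃ (K' : Type) (_ : Field K') (_ : NumberField K') (φ : K →+* K') (τ' : K' →+* ℝ),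
        τ'.comp φ = τ ∧ ∀ M, ConnectedReal τ (C e * chart F ε) M → S ∈ M →
          M ⊆ closure (realPoints τ' (Central (map φ (C e * chart F ε)))) := by
  obtain ⟨hd, hsm, -⟩ := Pool.Agent.Q182.TT.CHF.chf K 2 F hF ε
  exact result_chart K _ hd (hsm hs)

end Pool.Agent.Results.MP_9207e0_ag.RealComponents
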