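import Pool.Agent.U724.CH.Trans

/-!
# MP_9207e0_ag: zero-cycles on K3 surfaces and the number of homologically trivial cycles on powers

Let `X` be a K3 surface over a field `k` of characteristic zero, for instance a number field, let
`ρ_X` be its geometric Picard number, `δ (n)` the dimension of the space of the homologically trivial cycles
on `X ^ n` (all dimensions, rational coefficients, modulo rational equivalence), a number or infinity, and
`ρ (n)` the (finite) rank of the group of the cycles on `X ^ n` modulo numerical equivalence. Then
`δ (n) / ρ (n)` converges to a natural number `N` or to infinity (the known law, from the library), and we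
show:

Theorem. If `CH ^ 2 (X)_0 ≠ 0` then `N ≥ 22 - ρ_X`.

So each of the values `N = 0, 1, ..., 21 - ρ_X` implies `CH ^ 2 (X)_0 = 0`: the conjecture of the problem
holds for `X` as soon as `δ (n) < (22 - ρ_X - ε) ρ (n)` for infinitely many `n`, for one `ε > 0` (and it
holds for `X` and the homologically trivial cycles on all `X ^ n` if and only if `N = 0`). There is no
assumption on `X`: the motive need not be finite-dimensional.

More generally, let `X` be any variety with the sign conjecture (for K3 surfaces it is trivial, there is no odd
cohomology), `e` a self-correspondence which is modulo numerical equivalence a projector of rank `r` (on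
the cohomology) onto a simple summand of the motive of `X`, and `x ≠ 0` a homologically trivial cycle on
`X` with `e x = x`. Then `N ≥ r`. For a K3 surface `e` is the projector to the transcendental part
(Kahn, Murre, Pedrini). It is the identity on `CH ^ 2 (X)_0 = CH (X)_hom`, its rank is
`22 - ρ_X`, and it is simple because the transcendental part of `H ^ 2 (X)` is an irreducible Hodge structure
(Zarhin).

Idea of the proof. Let `N` be finite. Then (library) the numerically trivial endomorphisms `y` of
`h (X)` act as nilpotent operators on the homologically trivial cycles. If `φ` is a correspondence from
`X` to `X ^ n` with `φ x = 0` then `φ e` is numerically trivial: otherwise, since `e` is simple, there is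
a correspondence `ψ` with `ψ φ e = e + y`, with a numerically trivial `y`, so that
`0 = ψ φ x = x + y x`, and `x = 0` because `y` is nilpotent. So the space of the homologically trivial cycles
on `X ^ n` contains a copy of the space of the correspondences `φ e` modulo numerical equivalence, and its
dimension is asymptotically `r ρ (n)` (library: the asymptotic multiplicity is the rank).

The setting. The Chow group `Chow X` of a scheme `X` (cycles of all dimensions with rational
coefficients modulo rational equivalence) is defined with the order of vanishing of Mathlib.
Intersection theory enters through the category `C` of Chow motives over `k` with the correspondences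
of all degrees as morphisms: a rigid symmetric monoidal category with objects `h (X)` for the varieties
`X` over `k`, self-dual, with `Hom (1, h (X)) = Chow X` and `h (X × Y) = h (X) ⊗ h (Y)` (structure
`Motives`). `R` is a Weil cohomology with coefficients extended to an algebraically closed field `K`, a
tensor functor from `C` to super vector spaces; `R.CPlus` is the sign conjecture.
-/

set_option autoImplicit false

open CategoryTheory MonoidalCategory Module
open Pool.Agent.Y112.SR Pool.Agent.Y112.KD Pool.Agent.N64.AF
open Pool.Agent.U724.NT Pool.Agent.U724.CH

namespace Pool.Agent.Results.MP_9207e0_ag.TranscendentalRankLaw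

universe u u' v w

/-- The law for the homologically trivial cycles on the powers of `X`; the limit is at least the rank
of each simple part of the motive of `X` which contains a nonzero homologically trivial cycle. -/
theorem result {k : Type u} [Field k] {C : Type u'} [Category.{v} C] [Preadditive C]
    [MonoidalCategory C] [MonoidalPreadditive C] [SymmetricCategory C] [RightRigidCategory C]
    [Linear ℚ C] [MonoidalLinear ℚ C] (M : Motives k C)
    {K : Type w} [Field K] [IsAlgClosed K] [Algebra ℚ K] (R : SuperRealisation C K)
    (X : Sch k) (hX : M.IsVar X) (hne : Nonempty X.left) (hs : R.CPlus (M.h X)) :
    ∃ N : ℕ∞, HasLaw ℚ (M.h X) (fun n => dimE ℚ (M.homTriv R (M.isVar_power hX n))) N ∧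
      (N = 0 ↔ ∀ n, M.homTriv R (M.isVar_power hX n) = ⊥) ∧
      ∀ (e : Chow (prod X X).left) (r : ℕ), M.IsSimplePart R hX e r →
        (∃ x ∈ M.homTriv R hX, x ≠ 0 ∧ M.push hX hX (M.corr hX hX e) x = x) →
          (r : ℕ∞) ≤ N :=
  M.simple_law R hX hne hs

end Pool.Agent.Results.MP_9207e0_ag.TranscendentalRankLaw
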